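import Mathlib

set_option autoImplicit false

namespace Pool.Agent.Helper543.Rad

open MeasureTheory ProbabilityTheory Finset
open scoped RealInnerProductSpace ENNReal

abbrev V (n : ℕ) := EuclideanSpace ℂ (Fin n)

/-- exponents of total degree `N` -/
abbrev Ix (n N : ℕ) := {α : Fin n → ℕ // α ∈ (Finset.univ : Finset (Fin n)).piAntidiag N}

/-- normalised monomials -/
noncomputable def q {n N : ℕ} (α : Ix n N) (z : V n) : ℂ :=
  ((Real.sqrt (Nat.multinomial Finset.univ α.1) : ℝ) : ℂ) * ∏ i, z i ^ (α.1 i)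

lemma sum_q {n N : ℕ} (z : V n) : ∑ α : Ix n N, ‖q α z‖ ^ 2 = ‖z‖ ^ (2 * N) := by
  rw [pow_mul, EuclideanSpace.norm_sq_eq, Finset.sum_pow_eq_sum_piAntidiag]
  rw [← Finset.sum_coe_sort ((Finset.univ : Finset (Fin n)).piAntidiag N)
    (fun k => (Nat.multinomial Finset.univ k : ℝ) * ∏ i, (‖z i‖ ^ 2) ^ k i)]
  apply Finset.sum_congr rfl
  intro α _
  unfold q
  rw [norm_mul, mul_pow, Complex.norm_real, Real.norm_of_nonneg (Real.sqrt_nonneg _),
    Real.sq_sqrt (by positivity), norm_prod, ← Finset.prod_pow]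
  congr 1
  apply Finset.prod_congr rfl
  intro i _
  rw [norm_pow, ← pow_mul, ← pow_mul, mul_comm]

lemma q_homog {n N : ℕ} (α : Ix n N) (c : ℂ) (z : V n) : q α (c • z) = c ^ N * q α z := by
  unfold q
  have hα : ∑ i, α.1 i = N := by
    have := α.2
    rw [Finset.mem_piAntidiag] at this
    exact this.1
  have : ∏ i, (c • z) i ^ (α.1 i) = c ^ N * ∏ i, z i ^ (α.1 i) := by
    simp only [PiLp.smul_apply, smul_eq_mul, mul_pow, Finset.prod_mul_distrib]
    rw [Finset.prod_pow_eq_pow_sum, hα]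
  rw [this]; ring

lemma q_differentiable {n N : ℕ} (α : Ix n N) : Differentiable ℂ (q α : V n → ℂ) := by
  unfold q
  fun_prop

abbrev E (n N : ℕ) := EuclideanSpace ℝ (Ix n N × Bool)

noncomputable def uvec {n : ℕ} (N : ℕ) (z : V n) : E n N :=
  WithLp.toLp 2 (fun p => if p.2 then -(q p.1 z).im else (q p.1 z).re)

noncomputable def vvec {n : ℕ} (N : ℕ) (z : V n) : E n N :=
  WithLp.toLp 2 (fun p => if p.2 then (q p.1 z).re else (q p.1 z).im)

/-- homogeneous polynomial with coefficient vector `x` -/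
noncomputable def Pol {n N : ℕ} (x : E n N) (z : V n) : ℂ :=
  ∑ α : Ix n N, ((x (α, false) : ℂ) + (x (α, true) : ℂ) * Complex.I) * q α z

lemma re_Pol {n N : ℕ} (x : E n N) (z : V n) : (Pol x z).re = ⟪uvec N z, x⟫ := by
  unfold Pol uvec
  rw [PiLp.inner_apply, Fintype.sum_prod_type, Complex.re_sum]
  apply Finset.sum_congr rfl
  intro α _
  simp
  ring

lemma im_Pol {n N : ℕ} (x : E n N) (z : V n) : (Pol x z).im = ⟪vvec N z, x⟫ := by
  unfold Pol vvec
  rw [PiLp.inner_apply, Fintype.sum_prod_type, Complex.im_sum]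
  apply Finset.sum_congr rfl
  intro α _
  simp
  ring

lemma norm_uvec {n N : ℕ} (z : V n) : ‖uvec N z‖ = ‖z‖ ^ N := by
  have h : ‖uvec N z‖ ^ 2 = (‖z‖ ^ N) ^ 2 := by
    rw [EuclideanSpace.norm_sq_eq, Fintype.sum_prod_type, ← pow_mul, mul_comm N 2, ← sum_q (N := N)]
    apply Finset.sum_congr rfl
    intro α _
    rw [← Complex.normSq_eq_norm_sq, Complex.normSq_apply]
    simp [uvec]
    ring
  exact (pow_left_inj₀ (norm_nonneg _) (by positivity) two_ne_zero).mp h

lemma norm_vvec {n N : ℕ} (z : V n) : ‖vvec N z‖ = ‖z‖ ^ N := by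
  have h : ‖vvec N z‖ ^ 2 = (‖z‖ ^ N) ^ 2 := by
    rw [EuclideanSpace.norm_sq_eq, Fintype.sum_prod_type, ← pow_mul, mul_comm N 2, ← sum_q (N := N)]
    apply Finset.sum_congr rfl
    intro α _
    rw [← Complex.normSq_eq_norm_sq, Complex.normSq_apply]
    simp [vvec]
    ring
  exact (pow_left_inj₀ (norm_nonneg _) (by positivity) two_ne_zero).mp h

lemma norm_Pol_le {n N : ℕ} (x : E n N) (z : V n) : ‖Pol x z‖ ≤ 2 * ‖x‖ * ‖z‖ ^ N := by
  have h1 : |(Pol x z).re| ≤ ‖z‖ ^ N * ‖x‖ := by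
    rw [re_Pol, ← norm_uvec]; exact abs_real_inner_le_norm _ _
  have h2 : |(Pol x z).im| ≤ ‖z‖ ^ N * ‖x‖ := by
    rw [im_Pol, ← norm_vvec]; exact abs_real_inner_le_norm _ _
  have h3 := Complex.norm_le_abs_re_add_abs_im (Pol x z)
  linarith

lemma Pol_homog {n N : ℕ} (x : E n N) (c : ℂ) (z : V n) : Pol x (c • z) = c ^ N * Pol x z := by
  unfold Pol
  rw [Finset.mul_sum]
  apply Finset.sum_congr rfl
  intro α _
  rw [q_homog]; ring

lemma Pol_differentiable {n N : ℕ} (x : E n N) : Differentiable ℂ (Pol x : V n → ℂ) := by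
  unfold Pol
  apply Differentiable.fun_sum
  intro α _
  exact (q_differentiable α).const_mul _

lemma card_Ix (n N : ℕ) : Fintype.card (Ix n N) ≤ (N + 1) ^ n := by
  have hsub : (Finset.univ : Finset (Fin n)).piAntidiag N ⊆
      Fintype.piFinset (fun _ => Finset.range (N + 1)) := by
    intro α hα
    rw [Finset.mem_piAntidiag] at hα
    obtain ⟨hα1, _⟩ := hα
    change ∑ i, α i = N at hα1
    rw [Fintype.mem_piFinset]
    intro i
    rw [Finset.mem_range]
    have := Finset.single_le_sum (f := α) (fun i _ => Nat.zero_le _) (Finset.mem_univ i)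
    omega
  have := Finset.card_le_card hsub
  rw [Fintype.card_piFinset_const, Finset.card_range] at this
  rw [Fintype.card_coe]
  exact this

lemma law {n N : ℕ} (u : E n N) (hu : ‖u‖ = 1) :
    (stdGaussian (E n N)).map (fun x => ⟪u, x⟫) = gaussianReal 0 1 := by
  have h := IsGaussian.map_eq_gaussianReal (μ := stdGaussian (E n N)) (innerSL ℝ u)
  have h2 : ‖innerSL ℝ u‖ = 1 := by rw [innerSL_apply_norm, hu]
  rw [integral_strongDual_stdGaussian, variance_dual_stdGaussian, h2] at h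
  simpa using h

lemma lintegral_norm_sq {n N : ℕ} :
    ∫⁻ x, ENNReal.ofReal (‖x‖ ^ 2) ∂(stdGaussian (E n N)) = 2 * (Fintype.card (Ix n N) : ℝ≥0∞) := by
  have h1 : ∀ x : E n N, ENNReal.ofReal (‖x‖ ^ 2) = ∑ p, ENNReal.ofReal ((x p) ^ 2) := by
    intro x
    rw [EuclideanSpace.norm_sq_eq, ENNReal.ofReal_sum_of_nonneg (fun _ _ => by positivity)]
    apply Finset.sum_congr rfl
    intro p _
    rw [Real.norm_eq_abs, sq_abs]
  simp_rw [h1]
  rw [lintegral_finsetSum _ (fun p _ => by fun_prop)]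
  have h2 : ∀ p : Ix n N × Bool, ∫⁻ x : E n N, ENNReal.ofReal ((x p) ^ 2) ∂(stdGaussian (E n N)) = 1 := by
    intro p
    have hmap := law (EuclideanSpace.single p (1 : ℝ)) (by simp)
    have h3 : ∫⁻ y, ENNReal.ofReal (y ^ 2) ∂((stdGaussian (E n N)).map
        (fun x => ⟪EuclideanSpace.single p (1 : ℝ), x⟫)) = 1 := by
      rw [hmap, ← ofReal_integral_eq_lintegral_ofReal]
      · have := variance_of_integral_eq_zero (μ := gaussianReal 0 1) (X := id) (by fun_prop)
          (by simp)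
        rw [variance_id_gaussianReal] at this
        simp only [id] at this
        rw [← this]; simp
      · exact (memLp_id_gaussianReal 2).integrable_sq
      · exact Filter.Eventually.of_forall fun y => by positivity
    rw [lintegral_map (by fun_prop) (by fun_prop)] at h3
    rw [← h3]
    apply lintegral_congr
    intro x
    have : ⟪EuclideanSpace.single p (1 : ℝ), x⟫ = x p := by
      rw [EuclideanSpace.inner_single_left]; simp
    rw [this]
  rw [Finset.sum_congr rfl (fun p _ => h2 p)]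
  simp [mul_comm]

lemma gauss_tail {θ : ℝ≥0∞} (hθ : 0 < θ) : ∃ κ R : ℝ, 0 < κ ∧ κ ≤ R ∧
    gaussianReal 0 1 {y : ℝ | |y| < κ} ≤ θ ∧ gaussianReal 0 1 {y : ℝ | R / 2 < |y|} ≤ θ := by
  have h1 : Filter.Tendsto (fun m : ℕ => gaussianReal 0 1 {y : ℝ | |y| < 1 / ((m : ℝ) + 1)})
      Filter.atTop (nhds 0) := by
    have hint : (⋂ m : ℕ, {y : ℝ | |y| < 1 / ((m : ℝ) + 1)}) = {0} := by
      ext y
      simp only [Set.mem_iInter, Set.mem_ofPred_eq, Set.mem_singleton_iff]
      constructor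
      · intro h
        by_contra hy
        have : 0 < |y| := abs_pos.mpr hy
        obtain ⟨m, hm⟩ := exists_nat_one_div_lt this
        exact absurd (h m) (not_lt.mpr hm.le)
      · rintro rfl m
        rw [abs_zero]; positivity
    have hz : gaussianReal 0 1 ({0} : Set ℝ) = 0 := by
      have : NullSingletonClass (gaussianReal 0 1) := nullSingletonClass_gaussianReal one_ne_zero
      exact measure_singleton 0
    rw [← hz, ← hint]
    apply tendsto_measure_iInter_atTop
    · intro m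
      exact (measurableSet_lt (by fun_prop) (by fun_prop)).nullMeasurableSet
    · intro a b hab y hy
      simp only [Set.mem_ofPred_eq] at hy ⊢
      refine lt_of_lt_of_le hy ?_
      apply one_div_le_one_div_of_le (by positivity)
      have : (a : ℝ) ≤ b := by exact_mod_cast hab
      linarith
    · exact ⟨0, measure_ne_top _ _⟩
  have h2 : Filter.Tendsto (fun m : ℕ => gaussianReal 0 1 {y : ℝ | (m : ℝ) < |y|})
      Filter.atTop (nhds 0) := by
    have hint : (⋂ m : ℕ, {y : ℝ | (m : ℝ) < |y|}) = ∅ := by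
      ext y
      simp only [Set.mem_iInter, Set.mem_ofPred_eq, Set.mem_empty_iff_false, iff_false, not_forall,
        not_lt]
      exact exists_nat_ge |y|
    rw [← measure_empty (μ := gaussianReal 0 1), ← hint]
    apply tendsto_measure_iInter_atTop
    · intro m
      exact (measurableSet_lt (by fun_prop) (by fun_prop)).nullMeasurableSet
    · intro a b hab y hy
      simp only [Set.mem_ofPred_eq] at hy ⊢
      have : (a : ℝ) ≤ b := by exact_mod_cast hab
      linarith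
    · exact ⟨0, measure_ne_top _ _⟩
  obtain ⟨m, hm⟩ := (h1.eventually (gt_mem_nhds hθ)).exists
  obtain ⟨M, hM⟩ := (h2.eventually (gt_mem_nhds hθ)).exists
  refine ⟨1 / ((m : ℝ) + 1), max (1 / ((m : ℝ) + 1)) (2 * M), by positivity, le_max_left _ _,
    hm.le, (measure_mono ?_).trans hM.le⟩
  intro y hy
  simp only [Set.mem_ofPred_eq] at hy ⊢
  have := le_max_right (1 / ((m : ℝ) + 1)) (2 * (M : ℝ))
  linarith

lemma exists_Pol {n : ℕ} {Z : Type*} [MeasurableSpace Z] (ν : Measure Z) [IsFiniteMeasure ν]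
    (s : Z → V n) (hs : Measurable s) (hs1 : ∀ z, ‖s z‖ = 1) {κ R : ℝ} {θ : ℝ≥0∞} {d : ℝ}
    (hd : 0 < d)
    (h1 : gaussianReal 0 1 {y : ℝ | |y| < κ} ≤ θ)
    (h2 : gaussianReal 0 1 {y : ℝ | R / 2 < |y|} ≤ θ)
    (hθ : 3 * θ * ν Set.univ ≤ ENNReal.ofReal (d / 2)) (N : ℕ) :
    ∃ x : E n N, ν {z | ¬ (κ ≤ |(Pol x (s z)).im| ∧ ‖Pol x (s z)‖ ≤ R)} ≤ ENNReal.ofReal d ∧
      ‖x‖ ^ 2 ≤ 2 * (2 * (Fintype.card (Ix n N) : ℝ) + 1) := by
  set μ := stdGaussian (E n N) with hμ
  let Bad : Set (E n N × Z) :=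
    {p | ¬ (κ ≤ |(Pol p.1 (s p.2)).im| ∧ ‖Pol p.1 (s p.2)‖ ≤ R)}
  have hF : Measurable (fun p : E n N × Z => Pol p.1 (s p.2)) := by
    unfold Pol
    apply Finset.measurable_sum
    intro α _
    have hq : Measurable (fun p : E n N × Z => q α (s p.2)) :=
      (q_differentiable α).continuous.measurable.comp (hs.comp measurable_snd)
    fun_prop
  have hBad : MeasurableSet Bad := by
    have m1 : MeasurableSet {p : E n N × Z | κ ≤ |(Pol p.1 (s p.2)).im|} :=
      measurableSet_le measurable_const (Complex.measurable_im.comp hF).abs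
    have m2 : MeasurableSet {p : E n N × Z | ‖Pol p.1 (s p.2)‖ ≤ R} :=
      measurableSet_le hF.norm measurable_const
    exact (m1.inter m2).compl
  have hslice : ∀ z : Z, μ ((fun x => (x, z)) ⁻¹' Bad) ≤ 3 * θ := by
    intro z
    have hsub : (fun x : E n N => (x, z)) ⁻¹' Bad ⊆
        ((fun x => ⟪vvec N (s z), x⟫) ⁻¹' {y : ℝ | |y| < κ}) ∪
        (((fun x => ⟪vvec N (s z), x⟫) ⁻¹' {y : ℝ | R / 2 < |y|}) ∪
        ((fun x => ⟪uvec N (s z), x⟫) ⁻¹' {y : ℝ | R / 2 < |y|})) := by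
      intro x hx
      simp only [Set.mem_preimage, Set.mem_union, Set.mem_ofPred_eq]
      change ¬ (κ ≤ |(Pol x (s z)).im| ∧ ‖Pol x (s z)‖ ≤ R) at hx
      rw [← im_Pol, ← re_Pol]
      by_contra hcon
      push Not at hcon
      apply hx
      refine ⟨hcon.1, ?_⟩
      have := Complex.norm_le_abs_re_add_abs_im (Pol x (s z))
      linarith [hcon.2.1, hcon.2.2]
    have hv : ‖vvec N (s z)‖ = 1 := by rw [norm_vvec, hs1]; simp
    have hu : ‖uvec N (s z)‖ = 1 := by rw [norm_uvec, hs1]; simp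
    have hm1 : MeasurableSet {y : ℝ | |y| < κ} := measurableSet_lt (by fun_prop) (by fun_prop)
    have hm2 : MeasurableSet {y : ℝ | R / 2 < |y|} := measurableSet_lt (by fun_prop) (by fun_prop)
    have b1 : μ ((fun x => ⟪vvec N (s z), x⟫) ⁻¹' {y : ℝ | |y| < κ}) ≤ θ := by
      rw [← Measure.map_apply (by fun_prop) hm1, law _ hv]; exact h1
    have b2 : μ ((fun x => ⟪vvec N (s z), x⟫) ⁻¹' {y : ℝ | R / 2 < |y|}) ≤ θ := by
      rw [← Measure.map_apply (by fun_prop) hm2, law _ hv]; exact h2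
    have b3 : μ ((fun x => ⟪uvec N (s z), x⟫) ⁻¹' {y : ℝ | R / 2 < |y|}) ≤ θ := by
      rw [← Measure.map_apply (by fun_prop) hm2, law _ hu]; exact h2
    calc _ ≤ _ := measure_mono hsub
      _ ≤ _ := measure_union_le _ _
      _ ≤ θ + (θ + θ) := add_le_add b1 ((measure_union_le _ _).trans (add_le_add b2 b3))
      _ = 3 * θ := by ring
  have hprod : ∫⁻ x, ν (Prod.mk x ⁻¹' Bad) ∂μ ≤ ENNReal.ofReal (d / 2) := by
    rw [← Measure.prod_apply hBad, Measure.prod_apply_symm hBad]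
    calc ∫⁻ z, μ ((fun x => (x, z)) ⁻¹' Bad) ∂ν ≤ ∫⁻ _, 3 * θ ∂ν := lintegral_mono hslice
      _ = 3 * θ * ν Set.univ := by rw [lintegral_const]
      _ ≤ _ := hθ
  set C : ℝ := 2 * (Fintype.card (Ix n N) : ℝ) + 1 with hC
  have hCpos : 0 < C := by positivity
  have hnorm : ∫⁻ x : E n N, ENNReal.ofReal (d / 2 / C) * ENNReal.ofReal (‖x‖ ^ 2) ∂μ ≤
      ENNReal.ofReal (d / 2) := by
    rw [lintegral_const_mul _ (by fun_prop), lintegral_norm_sq]
    have e : (2 * (Fintype.card (Ix n N) : ℝ≥0∞)) = ENNReal.ofReal (2 * (Fintype.card (Ix n N) : ℝ)) := by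
      rw [ENNReal.ofReal_mul (by norm_num)]; simp
    rw [e, ← ENNReal.ofReal_mul (by positivity)]
    apply ENNReal.ofReal_le_ofReal
    rw [div_mul_eq_mul_div, div_le_iff₀ hCpos]
    apply mul_le_mul_of_nonneg_left _ (by positivity)
    rw [hC]; linarith
  have hmeas : Measurable (fun x : E n N => ν (Prod.mk x ⁻¹' Bad)) :=
    measurable_measure_prodMk_left hBad
  obtain ⟨x, hx⟩ := exists_le_lintegral (μ := μ) (f := fun x : E n N => ν (Prod.mk x ⁻¹' Bad) +
    ENNReal.ofReal (d / 2 / C) * ENNReal.ofReal (‖x‖ ^ 2))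
    (hmeas.add (by fun_prop)).aemeasurable
  rw [lintegral_add_left hmeas] at hx
  have hx2 : ν (Prod.mk x ⁻¹' Bad) + ENNReal.ofReal (d / 2 / C) * ENNReal.ofReal (‖x‖ ^ 2) ≤
      ENNReal.ofReal d := by
    refine hx.trans ((add_le_add hprod hnorm).trans ?_)
    rw [← ENNReal.ofReal_add (by positivity) (by positivity)]
    apply ENNReal.ofReal_le_ofReal
    linarith
  refine ⟨x, le_trans le_self_add hx2, ?_⟩
  have h3 : ENNReal.ofReal (d / 2 / C * ‖x‖ ^ 2) ≤ ENNReal.ofReal d := by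
    rw [ENNReal.ofReal_mul (by positivity)]
    exact le_trans le_add_self hx2
  rw [ENNReal.ofReal_le_ofReal_iff hd.le, div_mul_eq_mul_div, div_le_iff₀ hCpos] at h3
  have h4 : d / 2 * ‖x‖ ^ 2 ≤ d / 2 * (2 * C) := by linarith
  exact le_of_mul_le_mul_left h4 (by positivity)

end Pool.Agent.Helper543.Rad
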