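import Pool.Agent.Helper543.Rad.Gauss

set_option autoImplicit false

namespace Pool.Agent.Helper543.Rad

open MeasureTheory Set
open scoped ENNReal NNReal

/-- real coordinates of `ℂⁿ` -/
noncomputable def T (n : ℕ) : (Fin n × Bool → ℝ) →ₗ[ℝ] V n where
  toFun y := WithLp.toLp 2 (fun i => (y (i, false) : ℂ) + (y (i, true) : ℂ) * Complex.I)
  map_add' y y' := by
    ext i
    simp
    ring
  map_smul' c y := by
    ext i
    simp
    ring

lemma coord_le {n : ℕ} (y : Fin n × Bool → ℝ) (p : Fin n × Bool) : |y p| ≤ ‖T n y‖ := by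
  have h1 : ‖(T n y) p.1‖ ≤ ‖T n y‖ := PiLp.norm_apply_le _ _
  refine le_trans ?_ h1
  have e : (T n y) p.1 = (y (p.1, false) : ℂ) + (y (p.1, true) : ℂ) * Complex.I := rfl
  rw [e]
  obtain ⟨i, b⟩ := p
  cases b
  · have := Complex.abs_re_le_norm ((y (i, false) : ℂ) + (y (i, true) : ℂ) * Complex.I)
    simpa using this
  · have := Complex.abs_im_le_norm ((y (i, false) : ℂ) + (y (i, true) : ℂ) * Complex.I)
    simpa using this

lemma T_surj {n : ℕ} (v : V n) :
    T n (fun p => if p.2 then (v p.1).im else (v p.1).re) = v := by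
  ext i
  change (((if (false : Bool) then (v i).im else (v i).re) : ℝ) : ℂ) +
    (((if (true : Bool) then (v i).im else (v i).re) : ℝ) : ℂ) * Complex.I = v i
  simp [Complex.re_add_im]

/-- extension by the value `σ` at `p` -/
noncomputable def ext1 {n : ℕ} (p : Fin n × Bool) (σ : ℝ) (y : {q : Fin n × Bool // q ≠ p} → ℝ) :
    Fin n × Bool → ℝ := fun q => if h : q ≠ p then y ⟨q, h⟩ else σ

noncomputable def face {n : ℕ} (p : Fin n × Bool) (σ : ℝ) (y : {q : Fin n × Bool // q ≠ p} → ℝ) :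
    V n := (1 / ‖T n (ext1 p σ y)‖) • T n (ext1 p σ y)

lemma normalize_lip {W : Type*} [NormedAddCommGroup W] [NormedSpace ℝ W] {a b : W} (ha : 1 ≤ ‖a‖)
    (hb : 1 ≤ ‖b‖) : ‖(1 / ‖a‖) • a - (1 / ‖b‖) • b‖ ≤ 2 * ‖a - b‖ := by
  have ha0 : 0 < ‖a‖ := by linarith
  have hb0 : 0 < ‖b‖ := by linarith
  have e : (1 / ‖a‖) • a - (1 / ‖b‖) • b = ((‖b‖ - ‖a‖) / (‖a‖ * ‖b‖)) • a + (1 / ‖b‖) • (a - b) := by
    rw [smul_sub, ← add_sub_assoc, ← add_smul]
    congr 2
    field_simp
    ring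
  rw [e]
  refine (norm_add_le _ _).trans ?_
  rw [norm_smul, norm_smul, Real.norm_eq_abs, Real.norm_eq_abs, abs_div, abs_of_pos (mul_pos ha0 hb0),
    abs_of_pos (show 0 < 1 / ‖b‖ by positivity)]
  have h1 : |‖b‖ - ‖a‖| ≤ ‖a - b‖ := by
    rw [abs_sub_comm]; exact abs_norm_sub_norm_le a b
  have h2 : |‖b‖ - ‖a‖| / (‖a‖ * ‖b‖) * ‖a‖ = |‖b‖ - ‖a‖| / ‖b‖ := by field_simp
  rw [h2]
  have h3 : |‖b‖ - ‖a‖| / ‖b‖ ≤ ‖a - b‖ := by
    rw [div_le_iff₀ hb0]
    nlinarith [norm_nonneg (a - b)]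
  have h4 : 1 / ‖b‖ * ‖a - b‖ ≤ ‖a - b‖ := by
    have : 1 / ‖b‖ ≤ 1 := by rw [div_le_one hb0]; exact hb
    nlinarith [norm_nonneg (a - b)]
  linarith

lemma face_lip {n : ℕ} (p : Fin n × Bool) {σ : ℝ} (hσ : |σ| = 1) :
    ∃ C : ℝ≥0, LipschitzWith C (face (n := n) p σ) := by
  let Tc := LinearMap.toContinuousLinearMap (T n)
  refine ⟨2 * ‖Tc‖₊, LipschitzWith.of_dist_le_mul ?_⟩
  intro y y'
  have hge : ∀ y, 1 ≤ ‖T n (ext1 p σ y)‖ := by
    intro y
    have := coord_le (ext1 p σ y) p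
    have e : ext1 p σ y p = σ := by simp [ext1]
    rw [e, hσ] at this
    exact this
  rw [dist_eq_norm, dist_eq_norm]
  refine (normalize_lip (hge y) (hge y')).trans ?_
  have h1 : T n (ext1 p σ y) - T n (ext1 p σ y') = Tc (ext1 p σ y - ext1 p σ y') := by
    rw [← map_sub]; rfl
  have h2 : ‖ext1 p σ y - ext1 p σ y'‖ ≤ ‖y - y'‖ := by
    rw [pi_norm_le_iff_of_nonneg (norm_nonneg _)]
    intro q
    by_cases h : q ≠ p
    · have : (ext1 p σ y - ext1 p σ y') q = (y - y') ⟨q, h⟩ := by simp [ext1, h]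
      rw [this]
      exact norm_le_pi_norm _ _
    · have : (ext1 p σ y - ext1 p σ y') q = 0 := by simp [ext1, h]
      rw [this, norm_zero]
      exact norm_nonneg _
  rw [h1]
  have h3 := Tc.le_opNorm (ext1 p σ y - ext1 p σ y')
  push_cast
  have h4 : ‖Tc‖ * ‖ext1 p σ y - ext1 p σ y'‖ ≤ ‖Tc‖ * ‖y - y'‖ :=
    mul_le_mul_of_nonneg_left h2 (norm_nonneg _)
  linarith

lemma sphere_subset {n : ℕ} : Metric.sphere (0 : V n) 1 ⊆
    ⋃ p : Fin n × Bool, (face p 1 '' Icc (-1) 1 ∪ face p (-1) '' Icc (-1) 1) := by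
  classical
  intro v hv
  rw [mem_sphere_zero_iff_norm] at hv
  set y : Fin n × Bool → ℝ := fun p => if p.2 then (v p.1).im else (v p.1).re with hy
  have hTy : T n y = v := T_surj v
  have hne : Nonempty (Fin n × Bool) := by
    by_contra hcon
    rw [not_nonempty_iff] at hcon
    have : y = 0 := Subsingleton.elim _ _
    rw [this, map_zero] at hTy
    rw [← hTy, norm_zero] at hv
    exact zero_ne_one hv
  obtain ⟨p, hp⟩ := Finite.exists_max (fun p => |y p|)
  have hM : 0 < |y p| := by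
    by_contra hcon
    have h0 : |y p| = 0 := le_antisymm (not_lt.mp hcon) (abs_nonneg _)
    have : y = 0 := by
      funext q
      have := hp q
      rw [h0] at this
      exact abs_eq_zero.mp (le_antisymm this (abs_nonneg _))
    rw [this, map_zero] at hTy
    rw [← hTy, norm_zero] at hv
    exact zero_ne_one hv
  set M : ℝ := |y p| with hMdef
  have key : ∀ σ : ℝ, y p = σ * M → v ∈ face p σ '' Icc (-1) 1 := by
    intro σ hσ
    refine ⟨fun q => y q.1 / M, ?_, ?_⟩
    · constructor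
      · intro q
        change (-1 : ℝ) ≤ y q.1 / M
        rw [le_div_iff₀ hM]
        have := (abs_le.mp (hp q.1)).1
        linarith
      · intro q
        change y q.1 / M ≤ (1 : ℝ)
        rw [div_le_one hM]
        exact (abs_le.mp (hp q.1)).2
    · have e : ext1 p σ (fun q => y q.1 / M) = (1 / M) • y := by
        funext q
        by_cases h : q ≠ p
        · simp [ext1, h]; ring
        · have : q = p := not_not.mp h
          subst this
          simp [ext1, hσ]
          field_simp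
      unfold face
      rw [e, map_smul, hTy, norm_smul, hv, Real.norm_of_nonneg (by positivity), smul_smul]
      have : 1 / (1 / M * 1) * (1 / M) = 1 := by field_simp
      rw [this, one_smul]
  rw [mem_iUnion]
  refine ⟨p, ?_⟩
  rcases abs_cases (y p) with ⟨h, _⟩ | ⟨h, _⟩
  · left
    apply key
    rw [hMdef, h]; ring
  · right
    apply key
    rw [hMdef, h]; ring

lemma sphere_finite {n : ℕ} (hn : 1 ≤ n) :
    Measure.hausdorffMeasure (2 * (n : ℝ) - 1) (Metric.sphere (0 : V n) 1) < ∞ := by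
  classical
  refine lt_of_le_of_lt (measure_mono sphere_subset) ?_
  refine lt_of_le_of_lt (measure_iUnion_le _) ?_
  rw [tsum_fintype]
  rw [ENNReal.sum_lt_top]
  intro p _
  have hd : (0 : ℝ) ≤ 2 * (n : ℝ) - 1 := by
    have : (1 : ℝ) ≤ n := by exact_mod_cast hn
    linarith
  have hcard : (Fintype.card {q : Fin n × Bool // q ≠ p} : ℝ) = 2 * (n : ℝ) - 1 := by
    have h1 : Fintype.card {q : Fin n × Bool // q ≠ p} = n * 2 - 1 := by
      have := Fintype.card_subtype_compl (fun q : Fin n × Bool => q = p)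
      simp only [Fintype.card_prod, Fintype.card_fin, Fintype.card_bool,
        Fintype.card_subtype_eq] at this
      exact this
    rw [h1]
    have h2 : 1 ≤ n * 2 := by omega
    push_cast [h2]
    ring
  have hcube : Measure.hausdorffMeasure (2 * (n : ℝ) - 1)
      (Icc (-1) 1 : Set ({q : Fin n × Bool // q ≠ p} → ℝ)) < ∞ := by
    rw [← hcard, hausdorffMeasure_pi_real]
    exact isCompact_Icc.measure_lt_top
  have hf : ∀ σ : ℝ, |σ| = 1 → Measure.hausdorffMeasure (2 * (n : ℝ) - 1)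
      (face p σ '' Icc (-1) 1) < ∞ := by
    intro σ hσ
    obtain ⟨C, hC⟩ := face_lip (n := n) p hσ
    refine lt_of_le_of_lt (hC.hausdorffMeasure_image_le hd _) ?_
    exact ENNReal.mul_lt_top (ENNReal.rpow_lt_top_of_nonneg hd ENNReal.coe_ne_top) hcube
  refine lt_of_le_of_lt (measure_union_le _ _) ?_
  exact ENNReal.add_lt_top.mpr ⟨hf 1 (by simp), hf (-1) (by simp)⟩

end Pool.Agent.Helper543.Rad
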