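import Pool.Agent.Helper543.Rad.Runge
import Pool.Agent.Helper543.Rad.Gauss

set_option autoImplicit false

namespace Pool.Agent.Helper543.Rad

open MeasureTheory ProbabilityTheory Filter Topology Polynomial
open scoped ENNReal

/-- linear bound for a polynomial vanishing at `0` -/
lemma poly_lin (H : ℂ[X]) (h0 : H.eval 0 = 0) :
    ∃ L : ℝ, 0 < L ∧ ∀ w : ℂ, ‖w‖ ≤ 1 → ‖H.eval w‖ ≤ L * ‖w‖ := by
  have hd : X ∣ H := by
    rw [Polynomial.X_dvd_iff, Polynomial.coeff_zero_eq_eval_zero, h0]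
  obtain ⟨Q, hQ⟩ := hd
  obtain ⟨C, hC⟩ := (isCompact_closedBall (0 : ℂ) 1).exists_bound_of_continuousOn
    (f := fun w => Q.eval w) (by fun_prop)
  refine ⟨max C 1, by positivity, ?_⟩
  intro w hw
  rw [hQ, Polynomial.eval_mul, Polynomial.eval_X, norm_mul, mul_comm]
  apply mul_le_mul_of_nonneg_right _ (norm_nonneg _)
  exact (hC w (by simpa using hw)).trans (le_max_left _ _)

/-- one stage -/
lemma stage {n : ℕ} {Z : Type*} [MeasurableSpace Z] (ν : Measure Z) [IsFiniteMeasure ν]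
    (s : Z → V n) (hs : Measurable s) (hs1 : ∀ z, ‖s z‖ = 1) {d ρ : ℝ} (hd : 0 < d) (hd1 : d ≤ 1)
    (hρ0 : 0 < ρ) (hρ1 : ρ < 1) :
    ∃ F : V n → ℂ, Differentiable ℂ F ∧ (∀ z, ‖z‖ ≤ ρ → ‖F z‖ ≤ d) ∧
      ν {z | ¬ ((∀ r : ℝ, 0 ≤ r → r ≤ 1 → (F ((r : ℂ) • s z)).re ≤ d) ∧
        (F (s z)).re ≤ -1 / 4)} ≤ ENNReal.ofReal d := by
  -- tail parameter
  set m : ℝ := (ν Set.univ).toReal with hm
  have hm0 : 0 ≤ m := ENNReal.toReal_nonneg
  have hmν : ν Set.univ = ENNReal.ofReal m := by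
    rw [hm, ENNReal.ofReal_toReal (measure_ne_top _ _)]
  set θ : ℝ := d / 2 / (3 * (m + 1)) with hθ
  have hθ0 : 0 < θ := by positivity
  obtain ⟨κ, R, hκ, hκR, t1, t2⟩ := gauss_tail (θ := ENNReal.ofReal θ) (by simpa using hθ0)
  have hθb : 3 * ENNReal.ofReal θ * ν Set.univ ≤ ENNReal.ofReal (d / 2) := by
    rw [hmν]
    have e : (3 : ℝ≥0∞) = ENNReal.ofReal 3 := by simp
    rw [e, ← ENNReal.ofReal_mul (by norm_num), ← ENNReal.ofReal_mul (by positivity)]
    apply ENNReal.ofReal_le_ofReal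
    rw [hθ]
    have : 3 * (d / 2 / (3 * (m + 1))) * m = (d / 2) * (m / (m + 1)) := by field_simp
    rw [this]
    have : m / (m + 1) ≤ 1 := by rw [div_le_one (by positivity)]; linarith
    nlinarith
  obtain ⟨H, hH0, hH⟩ := exists_poly (κ := κ) (R := R) (ε := d) hκ hκR hd
  obtain ⟨L, hL, hLb⟩ := poly_lin H hH0
  -- choose the degree
  have hlim : Tendsto (fun N : ℕ => 4 * (2 * ((N : ℝ) + 1) ^ n + 1) * ρ ^ N) atTop (𝓝 0) := by
    have a1 : Tendsto (fun N : ℕ => ((N : ℝ)) ^ n * ρ ^ N) atTop (𝓝 0) :=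
      tendsto_pow_const_mul_const_pow_of_abs_lt_one n (by rw [abs_of_pos hρ0]; exact hρ1)
    have a2 : Tendsto (fun N : ℕ => (((N + 1 : ℕ) : ℝ)) ^ n * ρ ^ (N + 1)) atTop (𝓝 0) :=
      (tendsto_add_atTop_iff_nat 1).mpr a1
    have a3 : Tendsto (fun N : ℕ => ρ ^ N) atTop (𝓝 0) :=
      tendsto_pow_atTop_nhds_zero_of_lt_one hρ0.le hρ1
    have a4 := (a2.const_mul (8 / ρ)).add (a3.const_mul 4)
    simp only [mul_zero, add_zero] at a4
    refine a4.congr (fun N => ?_)
    push_cast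
    rw [pow_succ]
    field_simp
    ring
  have hpos : 0 < d / (L + 1) := by positivity
  obtain ⟨N, hN⟩ := (hlim.eventually (gt_mem_nhds hpos)).exists
  obtain ⟨x, hx1, hx2⟩ := exists_Pol ν s hs hs1 hd t1 t2 hθb N
  have hxn : ‖x‖ ≤ 2 * (2 * ((N : ℝ) + 1) ^ n + 1) := by
    have hc : (Fintype.card (Ix n N) : ℝ) ≤ ((N : ℝ) + 1) ^ n := by
      have := card_Ix n N
      exact_mod_cast this
    have h1 : ‖x‖ ^ 2 ≤ 2 * (2 * ((N : ℝ) + 1) ^ n + 1) := by linarith
    have h2 : (1 : ℝ) ≤ 2 * (2 * ((N : ℝ) + 1) ^ n + 1) := by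
      have : (0 : ℝ) ≤ ((N : ℝ) + 1) ^ n := by positivity
      linarith
    have h3 : ‖x‖ ^ 2 ≤ (2 * (2 * ((N : ℝ) + 1) ^ n + 1)) ^ 2 := by nlinarith
    exact le_of_sq_le_sq h3 (by linarith)
  refine ⟨fun z => H.eval (Pol x z), ?_, ?_, ?_⟩
  · exact H.differentiable.comp (Pol_differentiable x)
  · intro z hz
    have h1 : ‖Pol x z‖ ≤ d / (L + 1) := by
      calc ‖Pol x z‖ ≤ 2 * ‖x‖ * ‖z‖ ^ N := norm_Pol_le x z
        _ ≤ 2 * (2 * (2 * ((N : ℝ) + 1) ^ n + 1)) * ρ ^ N := by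
            apply mul_le_mul _ (pow_le_pow_left₀ (norm_nonneg _) hz N) (by positivity) (by positivity)
            linarith
        _ = 4 * (2 * ((N : ℝ) + 1) ^ n + 1) * ρ ^ N := by ring
        _ ≤ _ := hN.le
    have h2 : ‖Pol x z‖ ≤ 1 := by
      refine h1.trans ?_
      rw [div_le_one (by positivity)]
      linarith
    calc ‖H.eval (Pol x z)‖ ≤ L * ‖Pol x z‖ := hLb _ h2
      _ ≤ L * (d / (L + 1)) := mul_le_mul_of_nonneg_left h1 hL.le
      _ ≤ d := by
        rw [mul_div_assoc', div_le_iff₀ (by positivity)]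
        nlinarith
  · refine (measure_mono ?_).trans hx1
    intro z hz
    simp only [Set.mem_ofPred_eq] at hz ⊢
    intro hcon
    apply hz
    obtain ⟨g1, g2⟩ := hH (Pol x (s z)) hcon.1 hcon.2
    refine ⟨?_, g2⟩
    intro r hr0 hr1
    rw [Pol_homog]
    have := g1 (r ^ N) (by positivity) (pow_le_one₀ hr0 hr1)
    push_cast at this
    exact this

lemma fderiv_bound {n : ℕ} {F : V n → ℂ} (hF : Differentiable ℂ F) {z : V n} {t M : ℝ} (ht : 0 < t)
    (hM : ∀ y, ‖y - z‖ ≤ t → ‖F y‖ ≤ M) : ‖fderiv ℂ F z‖ ≤ M / t := by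
  have hM0 : 0 ≤ M := (norm_nonneg _).trans (hM z (by simpa using ht.le))
  apply ContinuousLinearMap.opNorm_le_bound _ (by positivity)
  intro v
  by_cases hv : v = 0
  · subst hv; simp
  have hvpos : 0 < ‖v‖ := norm_pos_iff.mpr hv
  let φ : ℂ → ℂ := fun c => F (z + c • v)
  have hφ : Differentiable ℂ φ := by
    apply hF.comp
    fun_prop
  have hder : deriv φ 0 = fderiv ℂ F z v := by
    have h1 : HasFDerivAt F (fderiv ℂ F z) (z + (0 : ℂ) • v) := by
      rw [zero_smul, add_zero]; exact (hF z).hasFDerivAt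
    have h2 : HasDerivAt (fun c : ℂ => z + c • v) v 0 := by
      have := (hasDerivAt_id (0 : ℂ)).smul_const v
      simpa using this.const_add z
    exact (h1.comp_hasDerivAt (0 : ℂ) h2).deriv
  have := Complex.norm_deriv_le_of_forall_mem_sphere_norm_le (c := 0) (R := t / ‖v‖) (C := M)
    (f := φ) (by positivity) hφ.diffContOnCl (by
      intro c hc
      apply hM
      rw [add_sub_cancel_left, norm_smul]
      rw [mem_sphere_zero_iff_norm] at hc
      rw [hc]
      field_simp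
      exact le_refl _)
  rw [hder] at this
  refine this.trans (le_of_eq ?_)
  field_simp

theorem main {n : ℕ} {Z : Type*} [MeasurableSpace Z] (ν : Measure Z) [SFinite ν]
    (s : Z → V n) (hs : Measurable s) (hs1 : ∀ z, ‖s z‖ = 1) :
    ∃ g : V n → ℂ, DifferentiableOn ℂ g (Metric.ball 0 1) ∧
      ∀ᵐ z ∂ν, Tendsto (fun r : ℝ => (g ((r : ℂ) • s z)).re) (𝓝[<] (1 : ℝ)) atBot := by
  have hstage := fun k : ℕ => stage ν.toFinite s hs hs1 (d := (1 / 2) ^ k)
    (ρ := 1 - 1 / ((k : ℝ) + 2)) (by positivity) (pow_le_one₀ (by norm_num) (by norm_num))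
    (by
      have : 1 / ((k : ℝ) + 2) < 1 := by
        rw [div_lt_one (by positivity)]
        have : (0 : ℝ) ≤ k := by positivity
        linarith
      linarith)
    (by
      have : 0 < 1 / ((k : ℝ) + 2) := by positivity
      linarith)
  choose F hF1 hF2 hF3 using hstage
  have hgeo : Summable (fun k : ℕ => ((1 : ℝ) / 2) ^ k) := summable_geometric_two
  -- key: radius control
  have hrad : ∀ r : ℝ, r < 1 → ∃ m : ℕ, ∀ k, m ≤ k → r ≤ 1 - 1 / ((k : ℝ) + 2) := by
    intro r hr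
    obtain ⟨m, hm⟩ := exists_nat_one_div_lt (sub_pos.mpr hr)
    refine ⟨m, fun k hk => ?_⟩
    have h1 : 1 / ((k : ℝ) + 2) ≤ 1 / ((m : ℝ) + 1) := by
      apply one_div_le_one_div_of_le (by positivity)
      have : (m : ℝ) ≤ k := by exact_mod_cast hk
      linarith
    linarith
  have hsum : ∀ z : V n, ‖z‖ < 1 → Summable (fun k => F k z) := by
    intro z hz
    obtain ⟨m, hm⟩ := hrad ‖z‖ hz
    rw [← summable_nat_add_iff m]
    apply Summable.of_norm_bounded ((summable_nat_add_iff m).mpr hgeo)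
    intro k
    exact hF2 (k + m) z (hm _ (Nat.le_add_left _ _))
  refine ⟨fun z => ∑' k, F k z, ?_, ?_⟩
  · intro z₀ hz₀
    apply DifferentiableAt.differentiableWithinAt
    rw [mem_ball_zero_iff] at hz₀
    set r : ℝ := (1 + ‖z₀‖) / 2 with hr
    set t : ℝ := (1 - r) / 2 with ht
    have hr1 : r < 1 := by rw [hr]; linarith
    have ht0 : 0 < t := by rw [ht]; linarith
    have hrt : r + t < 1 := by rw [ht]; linarith
    have hzr : ‖z₀‖ < r := by rw [hr]; linarith
    obtain ⟨m, hm⟩ := hrad (r + t) hrt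
    have hdiff : ∀ z ∈ Metric.ball (0 : V n) r,
        HasFDerivAt (fun y => ∑' k, F (k + m) y) (∑' k, fderiv ℂ (F (k + m)) z) z := by
      intro z hz
      apply hasFDerivAt_tsum_of_isPreconnected (u := fun k : ℕ => ((1 : ℝ) / 2) ^ (k + m) / t)
        (s := Metric.ball (0 : V n) r) _ Metric.isOpen_ball (convex_ball _ _).isPreconnected
        (fun k y _ => (hF1 (k + m) y).hasFDerivAt) _ (x₀ := z) hz _ hz
      · exact ((summable_nat_add_iff m).mpr hgeo).div_const t
      · intro k y hy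
        apply fderiv_bound (hF1 _) ht0
        intro w hw
        apply hF2
        rw [mem_ball_zero_iff] at hy
        have h1 : ‖w‖ ≤ ‖w - y‖ + ‖y‖ := by
          have := norm_add_le (w - y) y
          simpa using this
        have h2 := hm (k + m) (Nat.le_add_left _ _)
        linarith
      · rw [mem_ball_zero_iff] at hz
        exact (summable_nat_add_iff m).mpr (hsum z (hz.trans hr1))
    have hEq : (fun z => ∑' k, F k z) =ᶠ[𝓝 z₀]
        (fun z => ∑ k ∈ Finset.range m, F k z + ∑' k, F (k + m) z) := by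
      filter_upwards [Metric.isOpen_ball.mem_nhds (show z₀ ∈ Metric.ball (0 : V n) 1 by
        rw [mem_ball_zero_iff]; exact hz₀)] with z hz
      rw [mem_ball_zero_iff] at hz
      exact ((hsum z hz).sum_add_tsum_nat_add m).symm
    rw [hEq.differentiableAt_iff]
    apply DifferentiableAt.add
    · apply DifferentiableAt.fun_sum
      intro k _
      exact hF1 k z₀
    · exact (hdiff z₀ (by rw [mem_ball_zero_iff]; exact hzr)).differentiableAt
  · apply (absolutelyContinuous_toFinite ν).ae_le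
    have hBC : ν.toFinite {z | ∃ᶠ k in atTop, ¬ ((∀ r : ℝ, 0 ≤ r → r ≤ 1 →
        (F k ((r : ℂ) • s z)).re ≤ (1 / 2) ^ k) ∧ (F k (s z)).re ≤ -1 / 4)} = 0 := by
      apply measure_setOfPred_frequently_eq_zero
      refine ne_top_of_le_ne_top ?_ (ENNReal.tsum_le_tsum hF3)
      rw [← ENNReal.ofReal_tsum_of_nonneg (fun k => by positivity) hgeo]
      exact ENNReal.ofReal_ne_top
    have hae : ∀ᵐ z ∂ν.toFinite, ∀ᶠ k in atTop, ((∀ r : ℝ, 0 ≤ r → r ≤ 1 →
        (F k ((r : ℂ) • s z)).re ≤ (1 / 2) ^ k) ∧ (F k (s z)).re ≤ -1 / 4) := by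
      rw [ae_iff]
      simpa only [Filter.not_eventually] using hBC
    filter_upwards [hae] with z hz
    obtain ⟨k₀, hk₀⟩ := eventually_atTop.mp hz
    rw [tendsto_atBot]
    intro b
    set C0 : ℝ := ∑ k ∈ Finset.range k₀, (F k (s z)).re with hC0
    obtain ⟨j, hj⟩ := exists_nat_gt (4 * (C0 + 3 - b))
    set K : ℕ := k₀ + j with hK
    have hA1 : ∑ k ∈ Finset.range K, (F k (s z)).re ≤ b - 3 := by
      rw [hK, Finset.sum_range_add]
      have h1 : ∑ i ∈ Finset.range j, (F (k₀ + i) (s z)).re ≤ ∑ i ∈ Finset.range j, (-1 / 4 : ℝ) :=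
        Finset.sum_le_sum (fun i _ => (hk₀ (k₀ + i) (Nat.le_add_right _ _)).2)
      rw [Finset.sum_const, Finset.card_range, nsmul_eq_mul] at h1
      rw [← hC0]
      linarith
    have hcont : Continuous (fun r : ℝ => ∑ k ∈ Finset.range K, (F k ((r : ℂ) • s z)).re) := by
      apply continuous_finsetSum
      intro k _
      apply Complex.continuous_re.comp
      apply (hF1 k).continuous.comp
      fun_prop
    have hev : ∀ᶠ r : ℝ in 𝓝[<] (1 : ℝ),
        ∑ k ∈ Finset.range K, (F k ((r : ℂ) • s z)).re < b - 2 := by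
      apply eventually_nhdsWithin_of_eventually_nhds
      apply hcont.continuousAt.eventually_lt continuousAt_const
      simp only [Complex.ofReal_one, one_smul]
      linarith
    have hev2 : ∀ᶠ r : ℝ in 𝓝[<] (1 : ℝ), 0 < r ∧ r < 1 := by
      apply Filter.Eventually.and
      · exact eventually_nhdsWithin_of_eventually_nhds (lt_mem_nhds one_pos)
      · exact self_mem_nhdsWithin
    filter_upwards [hev, hev2] with r hr1 hr2
    have hnr : ‖(r : ℂ) • s z‖ < 1 := by
      rw [norm_smul, hs1, mul_one, Complex.norm_real, Real.norm_of_nonneg hr2.1.le]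
      exact hr2.2
    have hS := hsum _ hnr
    rw [Complex.re_tsum hS, ← (Complex.hasSum_re hS.hasSum).summable.sum_add_tsum_nat_add K]
    have hSre : Summable (fun k => (F (k + K) ((r : ℂ) • s z)).re) :=
      (summable_nat_add_iff K).mpr (Complex.hasSum_re hS.hasSum).summable
    have htail : ∑' k, (F (k + K) ((r : ℂ) • s z)).re ≤ 2 := by
      calc ∑' k, (F (k + K) ((r : ℂ) • s z)).re ≤ ∑' k : ℕ, ((1 : ℝ) / 2) ^ k := by
            apply Summable.tsum_le_tsum _ hSre hgeo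
            intro k
            have h1 := (hk₀ (k + K) (by omega)).1 r hr2.1.le hr2.2.le
            refine h1.trans ?_
            exact pow_le_pow_of_le_one (by norm_num) (by norm_num) (Nat.le_add_right _ _)
        _ = 2 := tsum_geometric_two
    linarith

end Pool.Agent.Helper543.Rad
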