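import Mathlib

set_option autoImplicit false

namespace Pool.Agent.Helper543.Rad

open Set Polynomial

/-- Runge for one pole and a compact set that is star-shaped about `0`. -/
lemma inv_mem_closure {K : Set ℂ} [CompactSpace K]
    (hstar : ∀ w ∈ K, ∀ ρ : ℝ, 0 ≤ ρ → ρ ≤ 1 → (ρ : ℂ) * w ∈ K) (h0 : (0 : ℂ) ∈ K)
    {a : ℂ} (ha : a ∉ K) :
    ∃ g ∈ (polynomialFunctions K).topologicalClosure, ∀ w : K, g w * ((w : ℂ) - a) = 1 := by
  let S := (polynomialFunctions K).topologicalClosure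
  have hclosed : IsClosed (S : Set C(K, ℂ)) := Subalgebra.isClosed_topologicalClosure _
  have hx : (Polynomial.toContinuousMapOnAlgHom K X) ∈ S := by
    apply Subalgebra.le_topologicalClosure
    rw [← SetLike.mem_coe, polynomialFunctions_coe]
    exact ⟨X, rfl⟩
  let x : S := ⟨Polynomial.toContinuousMapOnAlgHom K X, hx⟩
  have hxval : ∀ w : K, (x : C(K, ℂ)) w = (w : ℂ) := by
    intro w
    change (Polynomial.toContinuousMapOnAlgHom K X) w = (w : ℂ)
    simp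
  have hspec : spectrum ℂ (x : C(K, ℂ)) = K := by
    rw [ContinuousMap.spectrum_eq_range]
    ext z
    constructor
    · rintro ⟨w, hw⟩
      rw [hxval] at hw
      rw [← hw]; exact w.2
    · intro hz
      exact ⟨⟨z, hz⟩, hxval _⟩
  have ha0 : a ≠ 0 := fun h => ha (h ▸ h0)
  have hnot : a ∉ spectrum ℂ x := by
    intro hmem
    have hb := Subalgebra.spectrum_isBounded_connectedComponentIn S x hmem
    rw [hspec] at hb
    let ray : Set ℂ := (fun t : ℝ => (t : ℂ) * a) '' Ici 1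
    have hpre : IsPreconnected ray := by
      apply IsPreconnected.image isPreconnected_Ici
      fun_prop
    have hsub : ray ⊆ Kᶜ := by
      rintro z ⟨t, ht, rfl⟩ hz
      have ht1 : (1 : ℝ) ≤ t := ht
      have htpos : 0 < t := by linarith
      have := hstar _ hz (1 / t) (by positivity) (by rw [div_le_one htpos]; exact ht1)
      apply ha
      have he : ((1 / t : ℝ) : ℂ) * ((t : ℂ) * a) = a := by
        have htc : (t : ℂ) ≠ 0 := by exact_mod_cast htpos.ne'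
        push_cast
        field_simp
      rw [← he]; exact this
    have hamem : a ∈ ray := ⟨1, by simp, by simp⟩
    have hsub2 : ray ⊆ connectedComponentIn Kᶜ a :=
      hpre.subset_connectedComponentIn hamem hsub
    have hb2 := hb.subset hsub2
    obtain ⟨C, hC⟩ := hb2.exists_norm_le
    have hapos : 0 < ‖a‖ := norm_pos_iff.mpr ha0
    have := hC (((max 1 (C / ‖a‖ + 1) : ℝ) : ℂ) * a) ⟨_, Set.mem_Ici.mpr (le_max_left _ _), rfl⟩
    rw [norm_mul, Complex.norm_real, Real.norm_of_nonneg (by positivity)] at this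
    have h2 : (C / ‖a‖ + 1) * ‖a‖ ≤ C := le_trans
      (mul_le_mul_of_nonneg_right (le_max_right _ _) hapos.le) this
    have h3 : C / ‖a‖ * ‖a‖ = C := by field_simp
    nlinarith
  rw [spectrum.mem_iff, not_not] at hnot
  obtain ⟨u, hu⟩ := hnot
  refine ⟨-(((u⁻¹ : Sˣ) : S) : C(K, ℂ)), ?_, ?_⟩
  · exact S.neg_mem ((u⁻¹ : Sˣ) : S).2
  · intro w
    have h1 : ((u⁻¹ : Sˣ) : S) * (algebraMap ℂ S a - x) = 1 := by
      rw [← hu]; simp
    have h2 : (((u⁻¹ : Sˣ) : S) : C(K, ℂ)) * (algebraMap ℂ C(K, ℂ) a - (x : C(K, ℂ))) = 1 := by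
      have := congrArg (fun s : S => (s : C(K, ℂ))) h1
      simpa using this
    have h3 := congrArg (fun f : C(K, ℂ) => f w) h2
    simp only [ContinuousMap.mul_apply, ContinuousMap.sub_apply, ContinuousMap.one_apply] at h3
    rw [hxval] at h3
    have h4 : (algebraMap ℂ C(K, ℂ) a) w = a := rfl
    rw [h4] at h3
    rw [ContinuousMap.neg_apply]
    linear_combination h3


lemma norm_sub_ge {w : ℂ} {t s : ℝ} (ht : 0 < t) (hs0 : 0 < s) (hs1 : s ≤ 1)
    (hw : s * ‖w‖ ≤ |w.im|) : s * t ≤ ‖w - (t : ℂ)‖ := by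
  by_cases h : w = 0
  · subst h
    rw [zero_sub, norm_neg, Complex.norm_real, Real.norm_of_nonneg ht.le]
    nlinarith
  · have hpos : 0 < ‖w‖ := norm_pos_iff.mpr h
    have h1 : ‖w‖ ^ 2 = w.re ^ 2 + w.im ^ 2 := by
      rw [← Complex.normSq_eq_norm_sq, Complex.normSq_apply]; ring
    have h2 : ‖w - (t : ℂ)‖ ^ 2 = (w.re - t) ^ 2 + w.im ^ 2 := by
      rw [← Complex.normSq_eq_norm_sq, Complex.normSq_apply]; simp; ring
    have h3 : (s * ‖w‖) ^ 2 ≤ w.im ^ 2 := by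
      rw [← sq_abs w.im]
      exact pow_le_pow_left₀ (by positivity) hw 2
    have h4 : ‖w‖ ^ 2 * (s * t) ^ 2 ≤ ‖w‖ ^ 2 * ‖w - (t : ℂ)‖ ^ 2 := by
      have e1 : ‖w‖ ^ 2 * ‖w - (t : ℂ)‖ ^ 2 = t ^ 2 * w.im ^ 2
          + (w.re * (w.re - t) + w.im ^ 2) ^ 2 := by
        rw [h1, h2]; ring
      rw [e1]
      have e2 : ‖w‖ ^ 2 * (s * t) ^ 2 = t ^ 2 * (s * ‖w‖) ^ 2 := by ring
      rw [e2]
      nlinarith [mul_le_mul_of_nonneg_left h3 (sq_nonneg t),
        sq_nonneg (w.re * (w.re - t) + w.im ^ 2)]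
    have h5 : (s * t) ^ 2 ≤ ‖w - (t : ℂ)‖ ^ 2 := le_of_mul_le_mul_left h4 (by positivity)
    exact le_of_sq_le_sq h5 (norm_nonneg _)

lemma phi_big {w φ : ℂ} {t : ℝ} (ht : 0 < t) (hw : 2 * t ≤ ‖w‖)
    (hφ : φ * (w ^ 2 - (t : ℂ) ^ 2) = w ^ 2) : 1 / 2 ≤ φ.re := by
  have h1 : (φ - 1) * (w ^ 2 - (t : ℂ) ^ 2) = (t : ℂ) ^ 2 := by linear_combination hφ
  have h2 : ‖φ - 1‖ * ‖w ^ 2 - (t : ℂ) ^ 2‖ = t ^ 2 := by
    rw [← norm_mul, h1, norm_pow, Complex.norm_real, Real.norm_of_nonneg ht.le]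
  have h3 : 3 * t ^ 2 ≤ ‖w ^ 2 - (t : ℂ) ^ 2‖ := by
    have := norm_sub_norm_le (w ^ 2) ((t : ℂ) ^ 2)
    rw [norm_pow, norm_pow, Complex.norm_real, Real.norm_of_nonneg ht.le] at this
    nlinarith
  have h4 : ‖φ - 1‖ ≤ 1 / 3 := by
    by_contra hcon
    push Not at hcon
    nlinarith [norm_nonneg (φ - 1), mul_le_mul_of_nonneg_left h3 (norm_nonneg (φ - 1)),
      sq_pos_of_pos ht]
  have h5 := Complex.abs_re_le_norm (φ - 1)
  rw [Complex.sub_re, Complex.one_re] at h5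
  have := (abs_le.mp (h5.trans h4)).1
  linarith

/-- the telescoping profile -/
noncomputable def prof (x : ℝ) : ℝ := x ^ 2 / (1 + x ^ 2)

lemma prof_mono_aux {x : ℝ} : prof (2 * x) - prof x = 3 * x ^ 2 / ((1 + 4 * x ^ 2) * (1 + x ^ 2)) := by
  unfold prof
  have h1 : (1 + (2 * x) ^ 2) ≠ 0 := by positivity
  have h2 : (1 + x ^ 2) ≠ 0 := by positivity
  have h3 : (1 + 4 * x ^ 2) ≠ 0 := by positivity
  field_simp
  ring

lemma prof_nonneg (x : ℝ) : 0 ≤ prof x := by unfold prof; positivity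

lemma prof_le_one (x : ℝ) : prof x ≤ 1 := by
  unfold prof
  rw [div_le_one (by positivity)]
  linarith

lemma phi_low {w φ : ℂ} {t s : ℝ} (ht : 0 < t) (hs0 : 0 < s) (hs1 : s ≤ 1)
    (hw : s * ‖w‖ ≤ |w.im|) (hφ : φ * (w ^ 2 - (t : ℂ) ^ 2) = w ^ 2) :
    -φ.re ≤ (85 / (3 * s ^ 2)) * (prof (2 * (‖w‖ / t)) - prof (‖w‖ / t)) := by
  rw [prof_mono_aux]
  by_cases hbig : 2 * t ≤ ‖w‖
  · have := phi_big ht hbig hφ
    have h2 : 0 ≤ (85 / (3 * s ^ 2)) * (3 * (‖w‖ / t) ^ 2 /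
      ((1 + 4 * (‖w‖ / t) ^ 2) * (1 + (‖w‖ / t) ^ 2))) := by positivity
    linarith
  · push Not at hbig
    set x : ℝ := ‖w‖ / t with hx
    have hx0 : 0 ≤ x := by positivity
    have hx2 : x < 2 := by rw [hx, div_lt_iff₀ ht]; exact hbig
    have h1 : s * t ≤ ‖w - (t : ℂ)‖ := norm_sub_ge ht hs0 hs1 hw
    have h2 : s * t ≤ ‖w + (t : ℂ)‖ := by
      have := norm_sub_ge (w := -w) ht hs0 hs1 (by simpa using hw)
      have e : ‖-w - (t : ℂ)‖ = ‖w + (t : ℂ)‖ := by rw [← norm_neg]; congr 1; ring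
      rwa [e] at this
    have h3 : ‖φ‖ * (‖w - (t : ℂ)‖ * ‖w + (t : ℂ)‖) = ‖w‖ ^ 2 := by
      rw [← norm_mul, ← norm_mul, ← norm_pow, ← hφ]
      congr 1; ring
    have h4 : ‖φ‖ * (s * t) ^ 2 ≤ ‖w‖ ^ 2 := by
      rw [← h3, sq]
      apply mul_le_mul_of_nonneg_left _ (norm_nonneg _)
      exact mul_le_mul h1 h2 (by positivity) (norm_nonneg _)
    have h5 : ‖φ‖ ≤ x ^ 2 / s ^ 2 := by
      rw [le_div_iff₀ (by positivity), hx, div_pow, le_div_iff₀ (by positivity)]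
      calc ‖φ‖ * s ^ 2 * t ^ 2 = ‖φ‖ * (s * t) ^ 2 := by ring
        _ ≤ _ := h4
    have h6 : -φ.re ≤ ‖φ‖ := by
      have := Complex.abs_re_le_norm φ
      have := neg_abs_le φ.re
      linarith
    refine (h6.trans h5).trans ?_
    have h7 : (1 + 4 * x ^ 2) * (1 + x ^ 2) ≤ 85 := by
      have : x ^ 2 ≤ 4 := by nlinarith
      nlinarith [sq_nonneg x]
    have h8 : x ^ 2 / 85 ≤ x ^ 2 / ((1 + 4 * x ^ 2) * (1 + x ^ 2)) :=
      div_le_div_of_nonneg_left (by positivity) (by positivity) h7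
    calc x ^ 2 / s ^ 2 = (85 / s ^ 2) * (x ^ 2 / 85) := by field_simp
      _ ≤ (85 / s ^ 2) * (x ^ 2 / ((1 + 4 * x ^ 2) * (1 + x ^ 2))) :=
          mul_le_mul_of_nonneg_left h8 (by positivity)
      _ = _ := by
          have : (1 + 4 * x ^ 2) ≠ 0 := by positivity
          have : (1 + x ^ 2) ≠ 0 := by positivity
          field_simp

theorem exists_poly {κ R ε : ℝ} (hκ : 0 < κ) (hκR : κ ≤ R) (hε : 0 < ε) :
    ∃ H : ℂ[X], H.eval 0 = 0 ∧ ∀ w : ℂ, κ ≤ |w.im| → ‖w‖ ≤ R →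
      (∀ ρ : ℝ, 0 ≤ ρ → ρ ≤ 1 → (H.eval ((ρ : ℂ) * w)).re ≤ ε) ∧ (H.eval w).re ≤ -1 / 4 := by
  have hR : 0 < R := lt_of_lt_of_le hκ hκR
  set s : ℝ := κ / R with hs
  have hs0 : 0 < s := by positivity
  have hs1 : s ≤ 1 := by rw [hs, div_le_one hR]; exact hκR
  let K : Set ℂ := {w : ℂ | ‖w‖ ≤ R ∧ s * ‖w‖ ≤ |w.im|}
  have hKc : IsCompact K := by
    apply Metric.isCompact_of_isClosed_isBounded
    · apply IsClosed.inter
      · exact isClosed_le continuous_norm continuous_const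
      · exact isClosed_le (continuous_const.mul continuous_norm) (continuous_abs.comp Complex.continuous_im)
    · apply (Metric.isBounded_closedBall (x := (0 : ℂ)) (r := R)).subset
      intro w hw
      simpa using hw.1
  have : CompactSpace K := isCompact_iff_compactSpace.mp hKc
  have hstar : ∀ w ∈ K, ∀ ρ : ℝ, 0 ≤ ρ → ρ ≤ 1 → (ρ : ℂ) * w ∈ K := by
    rintro w ⟨h1, h2⟩ ρ h3 h4
    refine ⟨?_, ?_⟩
    · rw [norm_mul, Complex.norm_real, Real.norm_of_nonneg h3]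
      nlinarith [norm_nonneg w]
    · rw [norm_mul, Complex.norm_real, Real.norm_of_nonneg h3, Complex.im_ofReal_mul, abs_mul,
        abs_of_nonneg h3]
      nlinarith [mul_le_mul_of_nonneg_left h2 h3]
  have h0 : (0 : ℂ) ∈ K := by
    refine ⟨by simpa using hR.le, by simp⟩
  have hreal : ∀ t : ℝ, t ≠ 0 → (t : ℂ) ∉ K := by
    rintro t ht ⟨_, h2⟩
    rw [Complex.ofReal_im, abs_zero, Complex.norm_real] at h2
    have : 0 < ‖t‖ := norm_pos_iff.mpr ht
    nlinarith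
  obtain ⟨J, hJ⟩ := exists_nat_gt (85 / (3 * s ^ 2) / (ε / 2))
  have hJ0 : 0 < (J : ℝ) := lt_of_le_of_lt (by positivity) hJ
  let t : ℕ → ℝ := fun j => (κ / 2) * (1 / 2) ^ j
  have ht0 : ∀ j, 0 < t j := fun j => by positivity
  have hg1 : ∀ j, ∃ g ∈ (polynomialFunctions K).topologicalClosure,
      ∀ w : K, g w * ((w : ℂ) - ((t j : ℝ) : ℂ)) = 1 :=
    fun j => inv_mem_closure hstar h0 (hreal _ (ht0 j).ne')
  have hg2 : ∀ j, ∃ g ∈ (polynomialFunctions K).topologicalClosure,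
      ∀ w : K, g w * ((w : ℂ) - ((-t j : ℝ) : ℂ)) = 1 :=
    fun j => inv_mem_closure hstar h0 (hreal _ (neg_ne_zero.mpr (ht0 j).ne'))
  choose ga hga hga' using hg1
  choose gb hgb hgb' using hg2
  let S := (polynomialFunctions K).topologicalClosure
  let x : C(K, ℂ) := Polynomial.toContinuousMapOnAlgHom K X
  have hx : x ∈ S := by
    apply Subalgebra.le_topologicalClosure
    rw [← SetLike.mem_coe, polynomialFunctions_coe]
    exact ⟨X, rfl⟩
  have hxv : ∀ w : K, x w = (w : ℂ) := by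
    intro w
    change (Polynomial.toContinuousMapOnAlgHom K X) w = (w : ℂ)
    simp
  let Rf : C(K, ℂ) := (-(1 / (J : ℂ))) • ∑ j ∈ Finset.range J, x * x * ga j * gb j
  have hRf : Rf ∈ S := by
    apply S.smul_mem
    apply S.sum_mem
    intro j _
    exact S.mul_mem (S.mul_mem (S.mul_mem hx hx) (hga j)) (hgb j)
  have hRv : ∀ w : K, Rf w = -(1 / (J : ℂ)) *
      ∑ j ∈ Finset.range J, (w : ℂ) * w * ga j w * gb j w := by
    intro w
    change ((-(1 / (J : ℂ))) • ∑ j ∈ Finset.range J, x * x * ga j * gb j) w = _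
    rw [ContinuousMap.smul_apply, ContinuousMap.sum_apply, smul_eq_mul]
    congr 1
    apply Finset.sum_congr rfl
    intro j _
    simp only [ContinuousMap.mul_apply, hxv]
  have hφ : ∀ (w : K) (j : ℕ), ((w : ℂ) * w * ga j w * gb j w) *
      ((w : ℂ) ^ 2 - ((t j : ℝ) : ℂ) ^ 2) = (w : ℂ) ^ 2 := by
    intro w j
    have h1 := hga' j w
    have h2 := hgb' j w
    push_cast at h2
    calc ((w : ℂ) * w * ga j w * gb j w) * ((w : ℂ) ^ 2 - ((t j : ℝ) : ℂ) ^ 2)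
        = (w : ℂ) ^ 2 * (ga j w * ((w : ℂ) - ((t j : ℝ) : ℂ))) *
            (gb j w * ((w : ℂ) - -((t j : ℝ) : ℂ))) := by ring
      _ = (w : ℂ) ^ 2 := by rw [h1, h2]; ring
  -- upper bound on K
  have hup : ∀ w : K, (Rf w).re ≤ ε / 2 := by
    intro w
    rw [hRv]
    have e1 : (-(1 / (J : ℂ)) * ∑ j ∈ Finset.range J, (w : ℂ) * w * ga j w * gb j w).re
        = (1 / (J : ℝ)) * ∑ j ∈ Finset.range J, -((w : ℂ) * w * ga j w * gb j w).re := by
      have : (-(1 / (J : ℂ))) = ((-(1 / (J : ℝ)) : ℝ) : ℂ) := by push_cast; ring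
      rw [this, Complex.re_ofReal_mul, Complex.re_sum, Finset.sum_neg_distrib]
      ring
    rw [e1]
    have h2 : ∑ j ∈ Finset.range J, -((w : ℂ) * w * ga j w * gb j w).re ≤
        85 / (3 * s ^ 2) := by
      have h3 : ∀ j ∈ Finset.range J, -((w : ℂ) * w * ga j w * gb j w).re ≤
          (85 / (3 * s ^ 2)) * (prof (‖(w : ℂ)‖ / t (j + 1)) - prof (‖(w : ℂ)‖ / t j)) := by
        intro j _
        have := phi_low (ht0 j) hs0 hs1 w.2.2 (hφ w j)
        have e : ‖(w : ℂ)‖ / t (j + 1) = 2 * (‖(w : ℂ)‖ / t j) := by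
          change ‖(w : ℂ)‖ / ((κ / 2) * (1 / 2) ^ (j + 1)) = 2 * (‖(w : ℂ)‖ / ((κ / 2) * (1 / 2) ^ j))
          rw [pow_succ]
          field_simp
        rw [e]
        exact this
      refine (Finset.sum_le_sum h3).trans ?_
      rw [← Finset.mul_sum, Finset.sum_range_sub (fun j => prof (‖(w : ℂ)‖ / t j))]
      have h4 := prof_le_one (‖(w : ℂ)‖ / t J)
      have h5 := prof_nonneg (‖(w : ℂ)‖ / t 0)
      calc (85 / (3 * s ^ 2)) * (prof (‖(w : ℂ)‖ / t J) - prof (‖(w : ℂ)‖ / t 0))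
          ≤ (85 / (3 * s ^ 2)) * 1 := by
            apply mul_le_mul_of_nonneg_left _ (by positivity)
            linarith
        _ = _ := by ring
    calc (1 / (J : ℝ)) * ∑ j ∈ Finset.range J, -((w : ℂ) * w * ga j w * gb j w).re
        ≤ (1 / (J : ℝ)) * (85 / (3 * s ^ 2)) := mul_le_mul_of_nonneg_left h2 (by positivity)
      _ ≤ ε / 2 := by
        rw [div_lt_iff₀ (by positivity)] at hJ
        rw [one_div, inv_mul_le_iff₀ hJ0]
        linarith
  have hlow : ∀ w : K, κ ≤ ‖(w : ℂ)‖ → (Rf w).re ≤ -1 / 2 := by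
    intro w hw
    rw [hRv]
    have e1 : (-(1 / (J : ℂ)) * ∑ j ∈ Finset.range J, (w : ℂ) * w * ga j w * gb j w).re
        = -(1 / (J : ℝ)) * ∑ j ∈ Finset.range J, ((w : ℂ) * w * ga j w * gb j w).re := by
      have : (-(1 / (J : ℂ))) = ((-(1 / (J : ℝ)) : ℝ) : ℂ) := by push_cast; ring
      rw [this, Complex.re_ofReal_mul, Complex.re_sum]
    rw [e1]
    have h2 : ∑ j ∈ Finset.range J, (1 / 2 : ℝ) ≤
        ∑ j ∈ Finset.range J, ((w : ℂ) * w * ga j w * gb j w).re := by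
      apply Finset.sum_le_sum
      intro j _
      apply phi_big (ht0 j) _ (hφ w j)
      have : t j ≤ κ / 2 := by
        change (κ / 2) * (1 / 2) ^ j ≤ κ / 2
        have : ((1 : ℝ) / 2) ^ j ≤ 1 := pow_le_one₀ (by norm_num) (by norm_num)
        nlinarith
      linarith
    rw [Finset.sum_const, Finset.card_range, nsmul_eq_mul] at h2
    have h3 : (1 / (J : ℝ)) * ((J : ℝ) * (1 / 2)) ≤ (1 / (J : ℝ)) *
        ∑ j ∈ Finset.range J, ((w : ℂ) * w * ga j w * gb j w).re :=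
      mul_le_mul_of_nonneg_left h2 (by positivity)
    have h4 : (1 / (J : ℝ)) * ((J : ℝ) * (1 / 2)) = 1 / 2 := by field_simp
    linarith
  set η : ℝ := min (ε / 4) (1 / 8) with hη
  have hηpos : 0 < η := by positivity
  have hη1 : η ≤ ε / 4 := min_le_left _ _
  have hη2 : η ≤ 1 / 8 := min_le_right _ _
  have hcl : Rf ∈ closure ((polynomialFunctions K : Subalgebra ℂ C(K, ℂ)) : Set C(K, ℂ)) := by
    have := hRf
    rw [← SetLike.mem_coe, Subalgebra.topologicalClosure_coe] at this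
    exact this
  obtain ⟨p, hp, hpd⟩ := Metric.mem_closure_iff.mp hcl η hηpos
  rw [polynomialFunctions_coe] at hp
  obtain ⟨P, hP⟩ := hp
  have hPv : ∀ w : K, ‖Rf w - P.eval (w : ℂ)‖ < η := by
    intro w
    have h1 : dist (Rf w) (p w) ≤ dist Rf p := ContinuousMap.dist_apply_le_dist w
    have h2 : p w = P.eval (w : ℂ) := by rw [← hP]; simp
    rw [← h2, ← dist_eq_norm]
    exact lt_of_le_of_lt h1 hpd
  have hR0 : Rf ⟨0, h0⟩ = 0 := by rw [hRv]; simp
  have hP0 : ‖P.eval 0‖ < η := by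
    have := hPv ⟨0, h0⟩
    rw [hR0, zero_sub, norm_neg] at this
    exact this
  have hH : ∀ w : K, ‖Rf w - (P - C (P.eval 0)).eval (w : ℂ)‖ < 2 * η := by
    intro w
    have e : Rf w - (P - C (P.eval 0)).eval (w : ℂ) = (Rf w - P.eval (w : ℂ)) + P.eval 0 := by
      rw [Polynomial.eval_sub, Polynomial.eval_C]; ring
    rw [e]
    calc _ ≤ ‖Rf w - P.eval (w : ℂ)‖ + ‖P.eval 0‖ := norm_add_le _ _
      _ < 2 * η := by linarith [hPv w, hP0]
  have hre : ∀ w : K, ((P - C (P.eval 0)).eval (w : ℂ)).re ≤ (Rf w).re + 2 * η := by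
    intro w
    have h1 := Complex.abs_re_le_norm (Rf w - (P - C (P.eval 0)).eval (w : ℂ))
    rw [Complex.sub_re] at h1
    have := (abs_le.mp (h1.trans (hH w).le)).1
    linarith
  refine ⟨P - C (P.eval 0), by simp, ?_⟩
  intro w hw1 hw2
  have hwK : w ∈ K := by
    refine ⟨hw2, ?_⟩
    calc s * ‖w‖ ≤ s * R := mul_le_mul_of_nonneg_left hw2 hs0.le
      _ = κ := by rw [hs]; field_simp
      _ ≤ _ := hw1
  refine ⟨?_, ?_⟩
  · intro ρ hρ0 hρ1
    have h1 := hre ⟨_, hstar w hwK ρ hρ0 hρ1⟩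
    have h2 := hup ⟨_, hstar w hwK ρ hρ0 hρ1⟩
    simp only at h1
    linarith
  · have h1 := hre ⟨w, hwK⟩
    have h2 := hlow ⟨w, hwK⟩ (hw1.trans (Complex.abs_im_le_norm w))
    simp only at h1
    linarith

end Pool.Agent.Helper543.Rad
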